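import Mathlib
import Pool.Agent.R828.SingGroup

/-!
# Normality of the small-subsets ballean of a group (MP_08c285_gt)

If the ballean `(G, 𝓔_κ)`, `κ = |G|`, of an infinite group `G` is normal, then `κ` is regular.
-/

namespace Pool.Agent.Results.MP_08c285_gt.NormalRegular

open Cardinal Set

open scoped Pointwise

universe u

variable {G : Type u} [Group G]

/-- `E_A = {(x,y) : y ∈ xA}`. -/
def entOf (A : Set G) : Set (G × G) := {p | ∃ a ∈ A, p.2 = p.1 * a}

variable (G) in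
/-- The coarse structure `𝓔_κ`, `κ = |G|`: all subsets of the sets `E_A` with `|A| < κ`,
`e ∈ A = A⁻¹`. -/
def ent : Set (Set (G × G)) :=
  {E | ∃ A : Set G, #A < #G ∧ (1 : G) ∈ A ∧ (∀ g, g ∈ A ↔ g⁻¹ ∈ A) ∧ E ⊆ entOf A}

/-- `E[S]`. -/
def img (E : Set (G × G)) (S : Set G) : Set G := {y | ∃ x ∈ S, (x, y) ∈ E}

/-- A set is bounded if it is contained in a ball `E[{x}]`. -/
def Bounded (S : Set G) : Prop := ∃ E ∈ ent G, ∃ x : G, S ⊆ img E {x}

/-- Asymptotically disjoint sets. -/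
def AsympDisjoint (P Q : Set G) : Prop := ∀ E ∈ ent G, Bounded (img E P ∩ img E Q)

/-- `U` is an asymptotic neighbourhood of `P`. -/
def AsympNbhd (U P : Set G) : Prop := ∀ E ∈ ent G, Bounded (img E P \ U)

variable (G) in
/-- Normality of the ballean `(G, 𝓔_κ)`. -/
def Normal : Prop := ∀ P Q : Set G, AsympDisjoint P Q →
  ∃ U V : Set G, AsympNbhd U P ∧ AsympNbhd V Q ∧ AsympDisjoint U V

theorem bounded_lt {S : Set G} (h : Bounded S) : #S < #G := by
  obtain ⟨E, ⟨A, hA, _, _, hE⟩, x, hx⟩ := h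
  have h1 : S ⊆ (fun a => x * a) '' A := by
    intro y hy
    obtain ⟨x', hx', hxy⟩ := hx hy
    rw [Set.mem_singleton_iff] at hx'
    subst hx'
    obtain ⟨a, ha, h⟩ := hE hxy
    exact ⟨a, ha, h.symm⟩
  exact lt_of_le_of_lt ((Cardinal.mk_le_mk_of_subset h1).trans Cardinal.mk_image_le) hA

/-- The symmetric set with identity generated by `C` is small. -/
theorem small_sym (h0 : ℵ₀ ≤ #G) {C : Set G} (hC : #C < #G) :
    #(insert 1 (C ∪ C⁻¹) : Set G) < #G := by
  refine lt_of_le_of_lt Cardinal.mk_insert_le (Cardinal.add_lt_of_lt h0 ?_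
    (Cardinal.one_lt_aleph0.trans_le h0))
  refine lt_of_le_of_lt (Cardinal.mk_union_le _ _) (Cardinal.add_lt_of_lt h0 hC ?_)
  rwa [Cardinal.mk_inv]

theorem ent_sym (h0 : ℵ₀ ≤ #G) {C : Set G} (hC : #C < #G) :
    entOf (insert 1 (C ∪ C⁻¹)) ∈ ent G := by
  refine ⟨_, small_sym h0 hC, Set.mem_insert _ _, ?_, subset_rfl⟩
  intro g
  simp only [Set.mem_inv, Set.mem_insert_iff, Set.mem_union, inv_eq_one, inv_inv]
  tauto

/-- A set of cardinality `< κ` is bounded. -/
theorem bounded_of_lt (h0 : ℵ₀ ≤ #G) {S : Set G} (h : #S < #G) : Bounded S := by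
  refine ⟨_, ent_sym h0 h, 1, ?_⟩
  intro y hy
  exact ⟨1, rfl, y, Set.mem_insert_of_mem _ (Or.inl hy), by simp⟩

/-- In the ballean `(G, 𝓔_κ)` a set is bounded iff its cardinality is less than `κ`. -/
theorem bounded_iff (h0 : ℵ₀ ≤ #G) (S : Set G) : Bounded S ↔ #S < #G :=
  ⟨bounded_lt, bounded_of_lt h0⟩

section uniform

variable {ι : Type u} [LinearOrder ι] [WellFoundedLT ι]

/-- Uniform bound on the number of points of the lines outside an asymptotic neighbourhood. -/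
theorem unif (h0 : ℵ₀ < #G) (hι : #ι = #G) (hι' : ∀ i : ι, #(Iio i) < #G)
    (hcof : Order.cof ι < #G) (U P : Set G) (hU : AsympNbhd U P) (Y : ι → ι → G)
    (hY : ∀ η, Function.Injective (Y η)) (t : ι → G) (hP : ∀ η ξ, Y η ξ * t η ∈ P) :
    ∃ l : Cardinal.{u}, l < #G ∧ ∀ η, #{ξ | Y η ξ ∉ U} ≤ l := by
  by_contra hcon
  push Not at hcon
  obtain ⟨S, hS, hScard⟩ := Order.exists_cof_eq ι
  choose η hη using fun s : ι => hcon (#(Iio s)) (hι' s)
  let C : Set G := (fun s => (t (η s))⁻¹) '' S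
  have hC : #C < #G := lt_of_le_of_lt (Cardinal.mk_image_le.trans hScard.le) hcof
  have hN := bounded_lt (hU _ (ent_sym h0.le hC))
  have h1 : ∀ s ∈ S, #(Iio s) < #(img (entOf (insert 1 (C ∪ C⁻¹))) P \ U : Set G) := by
    intro s hs
    refine (hη s).trans_le ?_
    refine Cardinal.mk_le_of_injective (f := fun ξ => ⟨Y (η s) ξ.1, ?_, ξ.2⟩) ?_
    · refine ⟨_, hP (η s) ξ.1, (t (η s))⁻¹, Set.mem_insert_of_mem _ (Or.inl ⟨s, hs, rfl⟩), ?_⟩
      simp
    · intro ξ ξ' h
      exact Subtype.ext (hY (η s) (congrArg Subtype.val h))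
  have h2 : (Set.univ : Set ι) ⊆ ⋃ s ∈ S, Iic s := by
    intro i _
    obtain ⟨s, hs, his⟩ := hS i
    exact Set.mem_biUnion hs his
  have h3 : #ι ≤ #S * (#(img (entOf (insert 1 (C ∪ C⁻¹))) P \ U : Set G) + 1) := by
    calc #ι = #(Set.univ : Set ι) := Cardinal.mk_univ.symm
      _ ≤ #(⋃ s ∈ S, Iic s : Set ι) := Cardinal.mk_le_mk_of_subset h2
      _ ≤ #S * ⨆ s : S, #(Iic s.1) := Cardinal.mk_biUnion_le _ _
      _ ≤ _ := by
        gcongr
        apply ciSup_le'
        rintro ⟨s, hs⟩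
        rw [← Iio_insert]
        refine Cardinal.mk_insert_le.trans ?_
        gcongr
        exact (h1 s hs).le
  rw [hι] at h3
  refine absurd h3 (not_le.2 (Cardinal.mul_lt_of_lt h0.le (hScard.trans_lt hcof) ?_))
  exact Cardinal.add_lt_of_lt h0.le hN (Cardinal.one_lt_aleph0.trans h0)

end uniform

/-- The ballean of a group of singular cardinality is not normal. -/
theorem not_normal (h : (#G).IsSingular) : ¬ Normal G := by
  intro hN
  have h0' : ℵ₀ ≤ #G := h.aleph0_le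
  have h0 : ℵ₀ < #G := by
    rcases h0'.lt_or_eq with h1 | h1
    · exact h1
    · rw [← h1] at h
      exact absurd h Cardinal.not_isSingular_aleph0
  let ι : Type u := (#G).ord.ToType
  have hι : #ι = #G := Cardinal.mk_ord_toType _
  have hι' : ∀ i : ι, #(Iio i) < #G := fun i => by
    have := Cardinal.mk_Iio_lt (α := ι) i (by simp [ι])
    rwa [hι] at this
  have hcof : Order.cof ι < #G := by
    have h1 := h.cof_ord_lt
    rwa [← Ordinal.cof_toType] at h1
  have hinf : Infinite ι := by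
    rw [Cardinal.infinite_iff, hι]; exact h0'
  -- bijections
  obtain ⟨e⟩ : Nonempty (ι ≃ ι × ι) := by
    rw [← Cardinal.eq, Cardinal.mk_prod, Cardinal.lift_id, Cardinal.mul_eq_self]
    rw [hι]; exact h0'
  obtain ⟨s⟩ : Nonempty (ι ⊕ ι ≃ ι) := by
    rw [← Cardinal.eq, Cardinal.mk_sum, Cardinal.lift_id, Cardinal.add_eq_self]
    rw [hι]; exact h0'
  -- the sequences
  obtain ⟨v, hv⟩ := R828.SG.exists_ind h0 hι' (fun _ => (1 : G)) (fun _ => (1 : G))
  let a : ι → G := fun i => v (s (Sum.inl (e i).2))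
  let b : ι → G := fun i => v (s (Sum.inr (e i).1))
  obtain ⟨x, hx⟩ := R828.SG.exists_ind h0 hι' a b
  have hxi := hx.injective
  -- the two sets
  let A : Set G := Set.range (fun i => x i * a i)
  let B : Set G := Set.range (fun i => x i * b i)
  have hAB : AsympDisjoint A B := by
    rintro E ⟨C, hC, h1, hCC, hE⟩
    apply bounded_of_lt h0'
    have hD : #(C * C : Set G) < #G := by
      refine lt_of_le_of_lt ?_ (Cardinal.mul_lt_of_lt h0' hC hC)
      have h2 : (C * C : Set G) = Set.range (fun p : C × C => (p.1 : G) * p.2) := by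
        ext g
        constructor
        · rintro ⟨c, hc, d, hd, rfl⟩
          exact ⟨(⟨c, hc⟩, ⟨d, hd⟩), rfl⟩
        · rintro ⟨⟨⟨c, hc⟩, ⟨d, hd⟩⟩, rfl⟩
          exact ⟨c, hc, d, hd, rfl⟩
      rw [h2]
      exact Cardinal.mk_range_le.trans (by rw [Cardinal.mk_prod, Cardinal.lift_id])
    have hcount := hx.count h0 hD
    have hcountv := hv.count h0 hD
    -- diagonal solutions
    have hdiag : #{i : ι | (x i * b i)⁻¹ * (x i * a i) ∈ C * C} < #G := by
      refine lt_of_le_of_lt ?_ hcountv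
      refine Cardinal.mk_le_of_injective
        (f := fun i => ⟨(s (Sum.inl (e i.1).2), s (Sum.inr (e i.1).1)), ?_, ?_⟩) ?_
      · intro h3
        exact absurd (s.injective h3) (by simp)
      · have h3 : (x i.1 * b i.1)⁻¹ * (x i.1 * a i.1) ∈ C * C := i.2
        have h4 : (x i.1 * b i.1)⁻¹ * (x i.1 * a i.1) = (b i.1)⁻¹ * a i.1 := by group
        rw [h4] at h3
        simpa using h3
      · intro i j hij
        have h3 := congrArg (fun p => p.1.1) hij
        have h4 := congrArg (fun p => p.1.2) hij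
        simp only [EmbeddingLike.apply_eq_iff_eq, Sum.inl.injEq] at h3
        simp only [EmbeddingLike.apply_eq_iff_eq, Sum.inr.injEq] at h4
        exact Subtype.ext (e.injective (Prod.ext h4 h3))
    -- all solutions
    have hsol : #{p : ι × ι | (x p.2 * b p.2)⁻¹ * (x p.1 * a p.1) ∈ C * C} < #G := by
      have h3 : {p : ι × ι | (x p.2 * b p.2)⁻¹ * (x p.1 * a p.1) ∈ C * C} ⊆
          {p : ι × ι | p.1 ≠ p.2 ∧ (x p.2 * b p.2)⁻¹ * (x p.1 * a p.1) ∈ C * C} ∪
          (fun i => (i, i)) '' {i : ι | (x i * b i)⁻¹ * (x i * a i) ∈ C * C} := by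
        rintro ⟨i, j⟩ hp
        by_cases hij : i = j
        · subst hij
          exact Or.inr ⟨i, hp, rfl⟩
        · exact Or.inl ⟨hij, hp⟩
      exact lt_of_le_of_lt ((Cardinal.mk_le_mk_of_subset h3).trans (Cardinal.mk_union_le _ _))
        (Cardinal.add_lt_of_lt h0' hcount (Cardinal.mk_image_le.trans_lt hdiag))
    have hsub : img E A ∩ img E B ⊆ Set.range (fun p : {p : ι × ι |
        (x p.2 * b p.2)⁻¹ * (x p.1 * a p.1) ∈ C * C} × C => x p.1.1.1 * a p.1.1.1 * (p.2 : G)) := by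
      rintro y ⟨⟨_, ⟨i, rfl⟩, h3⟩, ⟨_, ⟨j, rfl⟩, h4⟩⟩
      obtain ⟨c, hc, h3⟩ := hE h3
      obtain ⟨c', hc', h4⟩ := hE h4
      simp only at h3 h4
      refine ⟨⟨⟨(i, j), ?_⟩, ⟨c, hc⟩⟩, h3.symm⟩
      refine ⟨c', hc', c⁻¹, ?_, ?_⟩
      · exact (hCC c).1 hc
      · simp only
        rw [h3] at h4
        have h5 : x i * a i = x j * b j * c' * c⁻¹ := by rw [← h4]; group
        rw [h5]; group
    refine lt_of_le_of_lt ((Cardinal.mk_le_mk_of_subset hsub).trans Cardinal.mk_range_le) ?_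
    rw [Cardinal.mk_prod, Cardinal.lift_id, Cardinal.lift_id]
    exact Cardinal.mul_lt_of_lt h0' hsol hC
  obtain ⟨U, V, hU, hV, hUV⟩ := hN A B hAB
  -- the intersection of `U` and `V` is small
  have hsmall : #(U ∩ V : Set G) < #G := by
    have h1 := bounded_lt (hUV _ (ent_sym (C := ∅) h0' (by simpa using h.pos)))
    refine lt_of_le_of_lt (Cardinal.mk_le_mk_of_subset ?_) h1
    rintro y ⟨hy1, hy2⟩
    exact ⟨⟨y, hy1, 1, Set.mem_insert _ _, by simp⟩, ⟨y, hy2, 1, Set.mem_insert _ _, by simp⟩⟩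
  let X : ι → ι → G := fun ξ η => x (e.symm (ξ, η))
  have hX : ∀ ξ η ξ' η', X ξ η = X ξ' η' → ξ = ξ' ∧ η = η' := by
    intro ξ η ξ' η' h1
    have h2 := e.symm.injective (hxi h1)
    exact ⟨congrArg Prod.fst h2, congrArg Prod.snd h2⟩
  obtain ⟨l₁, hl₁, hl₁'⟩ := unif h0 hι hι' hcof U A hU (fun η ξ => X ξ η)
    (fun η ξ ξ' h1 => (hX _ _ _ _ h1).1) (fun η => v (s (Sum.inl η))) (by
      intro η ξ
      exact ⟨e.symm (ξ, η), by simp [X, a]⟩)
  obtain ⟨l₂, hl₂, hl₂'⟩ := unif h0 hι hι' hcof V B hV (fun ξ η => X ξ η)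
    (fun ξ η η' h1 => (hX _ _ _ _ h1).2) (fun ξ => v (s (Sum.inr ξ))) (by
      intro ξ η
      exact ⟨e.symm (ξ, η), by simp [X, b]⟩)
  -- a common bound
  let l : Cardinal.{u} := max (max l₁ l₂) (max #(U ∩ V : Set G) ℵ₀)
  have hl : l < #G := max_lt (max_lt hl₁ hl₂) (max_lt hsmall h0)
  have hl0 : ℵ₀ ≤ l := (le_max_right _ _).trans (le_max_right _ _)
  have hsucc : Order.succ l < #G := h.isSuccLimit.succ_lt hl
  obtain ⟨I, hI⟩ := Cardinal.le_mk_iff_exists_set.1 (hsucc.le.trans hι.ge)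
  -- a column on which all points over `I` lie in `V`
  obtain ⟨η, hη⟩ : ∃ η : ι, ∀ ξ ∈ I, X ξ η ∈ V := by
    by_contra hcon
    push Not at hcon
    have h1 : (Set.univ : Set ι) ⊆ ⋃ ξ ∈ I, {η | X ξ η ∉ V} := by
      intro η _
      obtain ⟨ξ, hξ, h2⟩ := hcon η
      exact Set.mem_biUnion hξ h2
    have h2 : #ι ≤ #I * l := by
      calc #ι = #(Set.univ : Set ι) := Cardinal.mk_univ.symm
        _ ≤ #(⋃ ξ ∈ I, {η | X ξ η ∉ V} : Set ι) := Cardinal.mk_le_mk_of_subset h1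
        _ ≤ #I * ⨆ ξ : I, #{η | X ξ.1 η ∉ V} := Cardinal.mk_biUnion_le _ _
        _ ≤ _ := by
          gcongr
          apply ciSup_le'
          rintro ⟨ξ, hξ⟩
          exact (hl₂' ξ).trans ((le_max_right _ _).trans (le_max_left _ _))
    rw [hι, hI] at h2
    exact absurd h2 (not_le.2 (Cardinal.mul_lt_of_lt h0' hsucc hl))
  have h3 : #I ≤ l + l := by
    have h4 : I ⊆ {ξ | X ξ η ∉ U} ∪ {ξ | X ξ η ∈ U ∩ V} := by
      intro ξ hξ
      by_cases h5 : X ξ η ∈ U
      · exact Or.inr ⟨h5, hη ξ hξ⟩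
      · exact Or.inl h5
    refine (Cardinal.mk_le_mk_of_subset h4).trans ((Cardinal.mk_union_le _ _).trans ?_)
    refine add_le_add ((hl₁' η).trans ((le_max_left _ _).trans (le_max_left _ _))) ?_
    have h6 : #{ξ | X ξ η ∈ U ∩ V} ≤ #(U ∩ V : Set G) :=
      Cardinal.mk_le_of_injective (f := fun ξ => ⟨X ξ.1 η, ξ.2⟩) (by
        intro ξ ξ' h7
        exact Subtype.ext (hX _ _ _ _ (congrArg Subtype.val h7)).1)
    exact h6.trans ((le_max_left _ _).trans (le_max_right _ _))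
  rw [hI, Cardinal.add_eq_self hl0] at h3
  exact absurd h3 (not_le.2 (Order.lt_succ l))

/-- **Main result**: for every infinite group `G`, if the ballean `(G, 𝓔_κ)`, `κ = |G|`, is
normal, then `κ` is regular. -/
theorem result (G : Type u) [Group G] [Infinite G] (h : Normal G) : (#G).IsRegular := by
  by_contra hcon
  exact not_normal (Cardinal.IsSingular.of_not_isRegular (Cardinal.aleph0_le_mk G) hcon) h

end Pool.Agent.Results.MP_08c285_gt.NormalRegular
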